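import Mathlib
import Pool.Agent.Helper18.UW.GoalsR

/-! Project UW, packet V0: the hypotheses of the comparison with the virtual play hold. -/

set_option autoImplicit false

namespace Pool.Agent.Helper51.UW

open Finset
open Pool.Agent.Lead.Sh
open Pool.Agent.Helper43.Hw (T na va lz Play aa ac sc oo sk U Dd Sd Pn nx bb np)
open Pool.Agent.Helper43.Gm (Pri st mv nn)
open Pool.Agent.Helper18.EW
open Pool.Agent.Helper18.UW

theorem ukmono {m : ℕ → ℕ} {R N : ℕ} {κ x : ℕ → ℕ} (h : UPlay m R N κ x) {a b : ℕ}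
    (hab : a ≤ b) (hb : b < R) : κ a ≤ κ b := by
  induction b, hab using Nat.le_induction with
  | base => exact le_rfl
  | succ b hab ih => exact (ih (by omega)).trans (h.mono b (by omega))

theorem goalV0 (hU1 : GoalU1) (hR6d : GoalR6d) : GoalV0 := by
  intro m ms M μ δ R N0 N K b l Lg q v lam τ W κ x hS hR
  have hl1 := hS.par.l1
  have hR1 := hS.par.R1
  have hL1 := hS.par.L1
  have hb1 := hS.par.b1
  have hb2 := hS.par.b2
  have hd1 := hS.d1
  have hv1 := hS.v1
  have hvb := hS.vb
  have hvc := hS.vc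
  have hμM := hS.μM
  have hRM := hS.RM
  -- numerical facts
  have n1 : 2 ^ 42 ≤ b := by omega
  have n2 : b * l ≤ μ := by
    have e1 : 1 ≤ (q + 1) ^ 2 := Nat.one_le_pow _ _ (by omega)
    calc b * l = 1 * b * 1 * l := by ring
      _ ≤ 2 ^ 33 * b * (q + 1) ^ 2 * l := by
        refine Nat.mul_le_mul_right _ (Nat.mul_le_mul (Nat.mul_le_mul_right _ (by norm_num)) e1)
      _ ≤ μ := hb2
  have n3 : 2 ^ 42 * l ≤ b * l := Nat.mul_le_mul_right _ n1
  have n4 : l ≤ 2 ^ q * v := by omega
  have n5 : 1280 * (2 ^ q * v) ≤ μ := hvb.trans n2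
  have n6 : 1 ≤ μ := by omega
  generalize hv0 : 2 ^ q * v = v1 at *
  have ht1 := hR.t1
  have ht2 := hR.t2
  rw [hv0] at ht1 ht2
  have hYJ : τ + 1 + μ ≤ R := by omega
  have hB : Bx m M μ R N0 N lam τ κ x := ⟨hR.play, hYJ, hR.ex, hR.t0, hR.g2, hR.n0⟩
  have hm1 : ∀ c < N, 1 ≤ m c ∧ m c + 2 ≤ R := by
    intro c hc
    rcases Nat.lt_or_ge c N0 with h | h
    · have := hS.pre c h
      omega
    · have := hS.main c h hc
      omega
  obtain ⟨u1, -, u3, -, -, u6, -, -, -⟩ := hU1 m R N κ x hm1 (by omega) hR.play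
  have hN0 : N0 ≤ aa κ x (R - 56 * μ) := by
    have e1 := hR.n0
    have e2 := ukmono hR.play (a := R - 60 * M) (b := R - 56 * μ) (by omega) (by omega)
    unfold aa
    omega
  refine ⟨hB, hN0, ?_⟩
  have hN1g : aa κ x (R - 56 * μ) ≤ κ τ := by
    have e1 := ukmono hR.play (a := R - 56 * μ) (b := R - 50 * μ) (by omega) (by omega)
    have e2 := (hR6d m ms M μ δ R N0 N K b l Lg q v lam τ W κ x hS hB).2 (R - 50 * μ) (by omega)
      (by omega)
    have e3 := ukmono hR.play (a := R - 50 * μ + l) (b := τ) (by omega) (by omega)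
    have e4 : aa κ x (R - 56 * μ) ≤ κ (R - 56 * μ) + 1 := by
      unfold aa
      split_ifs <;> omega
    omega
  refine ⟨n6, hm1, hR.play, by omega, hYJ, rfl, hR.g2, hN1g, hR.pa, ?_, ?_, ?_, ?_⟩
  · intro c h1 h2
    exact hS.main c (by omega) h2
  · intro c c' h1 h2 h3
    exact hS.mono c c' (by omega) h2 h3
  · intro c h1 _
    have e1 := ((u1 c (R - 56 * μ) (by omega)).2).1 h1
    omega
  · intro c h1 z hz hzR
    have e1 : ac R κ x c ≤ R - 56 * μ := by
      by_contra hcon
      have := ((u1 c (R - 56 * μ) (by omega)).2).2 (by omega)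
      omega
    have e2 : κ z = κ τ := (hR.pa z hz hzR).1
    have e3 : c < κ z := by omega
    have e4 := (u6 z hzR c e3).2.2.2
    have e5 : ac R κ x c + m c ≤ z := by
      rcases Nat.lt_or_ge c N0 with h | h
      · have f1 := hS.pre c h
        have f2 : sc R κ c ≤ R - 60 * M := by
          by_contra hcon
          have := ((u1 c (R - 60 * M) (by omega)).1).2 (by omega)
          have := hR.n0
          omega
        have f3 := u3 c
        omega
      · have f0 : c < N := by
          have := hR.g2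
          omega
        have f1 := hS.main c h f0
        omega
    by_contra hcon
    have := e4.1 (Nat.pos_of_ne_zero hcon)
    omega

end Pool.Agent.Helper51.UW
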