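import Mathlib
import Pool.Agent.Helper18.UW.GoalsZ
import Pool.Agent.Helper33.EW.Z9
import Pool.Agent.Helper62.Hw.H9

/-! Project UW, packet Z9t: few pending skips of the zone. -/

set_option autoImplicit false

namespace Pool.Agent.Helper51.UW

open Finset
open Pool.Agent.Helper18.EW
open Pool.Agent.Helper18.UW
open Pool.Agent.Helper33.EW (growth)
open Pool.Agent.Helper43.Hw (T na va lz Play aa ac sc oo sk U Dd Sd Pn nx bb np)
open Pool.Agent.Helper43.Hw.PkH9 (harm κ_mono)

theorem goalZ9t (h4 : Pool.Agent.Helper43.Hw.GoalH4) : GoalZ9t := by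
  intro μ R N K b l Lg β s y W L o k D S n κ x hμ hR hl hb hK hKb hX hP hE hsy hy hpau hih
    hsec hL
  have hyR := hE.1
  have hJs := hX.Js
  set w := R - 1 - y with hw
  have hw1 : 1 ≤ w := by omega
  set F := (range y).filter (fun t => R - 1 - μ < t ∧ κ t < κ y ∧ 0 < x t ∧ 0 < U μ R x t ∧
    U μ R x t ≤ w) with hF
  have hge : ∀ t ∈ F, s ≤ t := by
    intro t ht
    rw [hF, mem_filter, mem_range] at ht
    by_contra hc
    have h1 := (hpau t (by omega) (by omega)).2
    have h2 := ht.2.2.2.2.1
    unfold U at h2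
    rw [h1] at h2
    unfold na at h2
    omega
  have hmaps : ∀ t ∈ F, κ t ∈ Ico (κ s) (κ y) := by
    intro t ht
    have h0 := hge t ht
    rw [hF, mem_filter, mem_range] at ht
    rw [mem_Ico]
    exact ⟨κ_mono hP h0 (by omega), ht.2.2.1⟩
  rw [card_eq_sum_card_fiberwise hmaps]
  set A := 2 ^ 14 * w with hA
  set G : ℕ → ℕ := fun j => 1 + (if j + 1 ≤ 6 * K then A / b else 168 * A / (j + 1)) with hG
  have hfib : ∀ c ∈ Ico (κ s) (κ y), (F.filter (fun t => κ t = c)).card ≤
      G (κ y - 1 - c) := by
    intro c hc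
    rw [mem_Ico] at hc
    rcases (F.filter (fun t => κ t = c)).eq_empty_or_nonempty with he | hne
    · rw [he, card_empty]; exact Nat.zero_le _
    have m1 := min'_mem _ hne
    have m2 := max'_mem _ hne
    set t1 := (F.filter (fun t => κ t = c)).min' hne with ht1
    set t2 := (F.filter (fun t => κ t = c)).max' hne with ht2
    have hs1 : s ≤ t1 := hge t1 (mem_filter.1 m1).1
    rw [hF, mem_filter, mem_filter, mem_range] at m1 m2
    have h12 : t1 ≤ t2 := min'_le_max' _ hne
    have hcard : (F.filter (fun t => κ t = c)).card ≤ t2 + 1 - t1 := by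
      rw [← Nat.card_Icc]
      refine card_le_card fun t ht => ?_
      rw [mem_Icc]
      exact ⟨min'_le _ _ ht, le_max' _ _ ht⟩
    set q := (F.filter (fun t => κ t = c)).card with hq
    have hgr := (growth h4 hμ hR hX hP hE hih (t1 := t1) (t2 := t2) (by omega) (by omega)
      (by omega) m1.1.2.2.2.1 t2 h12 le_rfl).2
    set X := R - 1 - t2 with hXX
    have hXw : w < X := by omega
    have e1 : (q - 1) * (b * l + X) ≤ (t2 - t1) * (b * l + X) :=
      Nat.mul_le_mul_right _ (by omega)
    have e2 : 2 ^ 14 * l * U μ R x t2 ≤ 2 ^ 14 * l * w := Nat.mul_le_mul_left _ m2.1.2.2.2.2.2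
    have e4 : (q - 1) * (b * l + X) ≤ l * A := by
      have e40 : 2 ^ 14 * l * w = l * A := by rw [hA]; ring
      rw [e40] at e2
      generalize (q - 1) * (b * l + X) = a1 at *
      generalize (t2 - t1) * (b * l + X) = a2 at *
      generalize 2 ^ 14 * l * U μ R x t2 = a3 at *
      generalize 2 ^ 14 * l * U μ R x t1 = a4 at *
      generalize l * A = a5 at *
      omega
    have e5 := hsec t2 (by omega) (by omega)
    rw [m2.2, ← hXX] at e5
    have hj1 : κ y - c = (κ y - 1 - c) + 1 := by omega
    rw [hj1] at e5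
    rw [hG]
    simp only
    set j := κ y - 1 - c with hj
    split_ifs with hjK
    · have e6 : l * ((q - 1) * b) ≤ l * A := by
        calc l * ((q - 1) * b) = (q - 1) * (b * l) := by ring
          _ ≤ (q - 1) * (b * l + X) := Nat.mul_le_mul_left _ (by omega)
          _ ≤ l * A := e4
      have e7 := Nat.le_of_mul_le_mul_left e6 (by omega)
      have e8 : q - 1 ≤ A / b := (Nat.le_div_iff_mul_le (by omega)).2 e7
      omega
    · have e6 : l * (j + 1) ≤ 168 * X := by
        have e61 : 6 * K + 1 ≤ j + 1 := by omega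
        have e62 : l * (6 * K + 1) ≤ l * (j + 1) := Nat.mul_le_mul_left _ e61
        have e63 : l * (6 * K + 1) = 2 * (3 * K * l) + l := by ring
        rw [e63] at e62
        generalize 3 * K * l = a1 at *
        generalize l * (j + 1) = a2 at *
        omega
      have e7 : l * ((q - 1) * (j + 1)) ≤ l * (168 * A) := by
        calc l * ((q - 1) * (j + 1)) = (q - 1) * (l * (j + 1)) := by ring
          _ ≤ (q - 1) * (168 * X) := Nat.mul_le_mul_left _ e6
          _ = 168 * ((q - 1) * X) := by ring
          _ ≤ 168 * ((q - 1) * (b * l + X)) :=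
              Nat.mul_le_mul_left _ (Nat.mul_le_mul_left _ (by omega))
          _ ≤ 168 * (l * A) := Nat.mul_le_mul_left _ e4
          _ = l * (168 * A) := by ring
      have e8 := Nat.le_of_mul_le_mul_left e7 (by omega)
      have e9 : q - 1 ≤ 168 * A / (j + 1) := (Nat.le_div_iff_mul_le (by omega)).2 e8
      omega
  refine (sum_le_sum hfib).trans ?_
  rw [sum_Ico_eq_sum_range]
  set m := κ y - κ s with hm
  have hrefl : ∑ i ∈ range m, G (κ y - 1 - (κ s + i)) = ∑ j ∈ range m, G j := by
    rw [← sum_range_reflect]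
    refine sum_congr rfl fun i hi => ?_
    rw [mem_range] at hi
    congr 1
    omega
  rw [hrefl, hG, sum_add_distrib, sum_const, card_range, smul_eq_mul, mul_one]
  have hsum : ∑ j ∈ range m, (if j + 1 ≤ 6 * K then A / b else 168 * A / (j + 1)) ≤
      174 * A * Lg := by
    have a1 : ∑ j ∈ range m, (if j + 1 ≤ 6 * K then A / b else 168 * A / (j + 1)) ≤
        ∑ j ∈ range m, (if j + 1 ≤ 6 * K then A / b else 0) +
          ∑ j ∈ range m, 168 * A / (j + 1) := by
      rw [← sum_add_distrib]
      refine sum_le_sum fun j _ => ?_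
      split_ifs
      · exact Nat.le_add_right _ _
      · rw [zero_add]
    have a2 : ∑ j ∈ range m, (if j + 1 ≤ 6 * K then A / b else 0) ≤ 6 * K * (A / b) := by
      rw [← sum_filter, sum_const, smul_eq_mul]
      refine Nat.mul_le_mul_right _ ?_
      calc ((range m).filter (fun j => j + 1 ≤ 6 * K)).card ≤ (range (6 * K)).card := by
            refine card_le_card fun j hj => ?_
            rw [mem_filter] at hj
            rw [mem_range]
            omega
        _ = 6 * K := card_range _
    have a3 : 6 * K * (A / b) ≤ 6 * A * Lg := by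
      have a31 : b * (A / b) ≤ A := Nat.mul_div_le _ _
      calc 6 * K * (A / b) ≤ 6 * (b * Lg) * (A / b) :=
            Nat.mul_le_mul_right _ (Nat.mul_le_mul_left _ hKb)
        _ = 6 * (b * (A / b)) * Lg := by ring
        _ ≤ 6 * A * Lg := Nat.mul_le_mul_right _ (Nat.mul_le_mul_left _ a31)
    have a4 := harm (168 * A) Lg m hL
    have a5 : 6 * A * Lg + 168 * A * Lg = 174 * A * Lg := by ring
    omega
  have hfin : 174 * A * Lg ≤ 200 * 2 ^ 14 * w * Lg := by
    calc 174 * A * Lg ≤ 200 * A * Lg := Nat.mul_le_mul_right _ (Nat.mul_le_mul_right _ (by norm_num))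
      _ = 200 * 2 ^ 14 * w * Lg := by rw [hA]; ring
  exact Nat.add_le_add_left (hsum.trans hfin) m

end Pool.Agent.Helper51.UW
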